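import Pool.Agent.PLX.StmtsB

/-! Row BKS of squad PLX: blocks at the scale one. -/

set_option autoImplicit false

namespace Pool.Agent.PLX.H38

open Module Pool.Agent.PLX

section facts

variable {A : Type} [AddCommGroup A] [Module ℚ A] {E : Type} [NormedAddCommGroup E]
variable {Φ : A →+ ℂ} {f : A →+ E} {G : AddSubgroup A}

theorem slope_bs (hD : Dsc f G) (ρ t : ℝ) :
    ∀ x ∈ bs f (lp Φ G t) ρ, (Φ x).im = t * (Φ x).re := by
  intro x hx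
  unfold bs at hx
  induction hx using Submodule.span_induction with
  | mem x hx =>
    exact ((mem_bl (hD.lp t)).1 (Finset.mem_coe.1 hx)).1.2
  | zero => simp
  | add x y _ _ hx hy =>
    rw [map_add, Complex.add_im, Complex.add_re, hx, hy]
    ring
  | smul c x _ hx =>
    rw [Φ_rat]
    simp only [Complex.mul_im, Complex.mul_re, Complex.ratCast_re, Complex.ratCast_im, zero_mul,
      add_zero, sub_zero, hx]
    ring

theorem bl_cut (hD : Dsc f G) {ρ t r : ℝ}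
    (h : bs f (lp Φ G t) r ≤ bs f (lp Φ G t) ρ) :
    bl f (cut G (bs f (lp Φ G t) ρ)) r = bl f (lp Φ G t) r := by
  ext x
  rw [mem_bl (hD.cut _), mem_bl (hD.lp t), mem_cut, mem_lp]
  constructor
  · rintro ⟨⟨h1, h2⟩, h3⟩
    exact ⟨⟨h1, slope_bs hD ρ t x h2⟩, h3⟩
  · rintro ⟨⟨h1, h2⟩, h3⟩
    refine ⟨⟨h1, h ?_⟩, h3⟩
    exact Submodule.subset_span (Finset.mem_coe.2 ((mem_bl (hD.lp t)).2 ⟨⟨h1, h2⟩, h3⟩))

omit [Module ℚ A] in
theorem lp_le_lz (t : ℝ) : lp Φ G t ≤ lz Φ G ⟨1, t⟩ := by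
  intro x hx
  refine mem_lz.2 ⟨hx.1, (Φ x).re, ?_⟩
  apply Complex.ext
  · simp
  · have := hx.2
    simp only [Complex.mul_im, Complex.ofReal_re, Complex.ofReal_im, mul_one, add_zero]
    rw [this]
    ring

end facts

theorem bks (hCOV : CovStmt) (hMIK : MikStmt) (hBLF : BlfStmt) (hBCK : BckStmt)
    (hTPL : TplStmt) (hCS1 : Cs1Stmt) : BksStmt := by
  classical
  intro e b he
  obtain ⟨c, C, hcst⟩ := hCS1 e b
  refine ⟨c, C, ?_⟩
  intro A _ _ E _ _ Φ f G Θ L j ρ hfin hD hrk hL hj hP hρ0 hρ hlines hcnt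
  have hL0 : (0 : ℝ) < L := by linarith
  have hLC : (1 : ℝ) ≤ L ^ C := one_le_pow₀ (by linarith)
  have hLb : (1 : ℝ) ≤ L ^ b := one_le_pow₀ (by linarith)
  have hj0 : (0 : ℝ) < j := by linarith
  obtain ⟨B, hB⟩ : ∃ B : ℝ, B = 4 * 17 ^ (2 * e) * L ^ b := ⟨_, rfl⟩
  obtain ⟨s, hs⟩ : ∃ s : ℕ, s = ⌈5184 * B⌉₊ + 5 := ⟨_, rfl⟩
  obtain ⟨K, hK⟩ : ∃ K : ℝ, K = 256 * (9 * B * s) ^ 4 := ⟨_, rfl⟩
  obtain ⟨m, hm⟩ : ∃ m : ℕ,
    m = ⌈(3 * ((e : ℝ) + 1) * K ^ ((e + 1) * e)) ^ e * K ^ ((e + 1) * e)⌉₊ := ⟨_, rfl⟩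
  obtain ⟨n, hn⟩ : ∃ n : ℕ, n = 2 * ((e + 1) * (1 + m) * m ^ (e + 1)) ^ e + 1 := ⟨_, rfl⟩
  obtain ⟨R, hR⟩ : ∃ R : ℝ,
    R = 8 * ((e : ℝ) + 1) + B * s * ((4 * ((e : ℝ) + 2)) ^ (2 * e) * 7 ^ (2 * e)) + 1 := ⟨_, rfl⟩
  obtain ⟨T, hT⟩ : ∃ T : ℝ, T = ((K ^ e + 1) * (e * (2 * (m : ℝ) + 1) ^ (e + 1))) ^ e := ⟨_, rfl⟩
  obtain ⟨c1, c2, c3, c4, c5, c6, c7⟩ := hcst L B K T R s m n hL hB hs hK hm hn hR hT
  obtain ⟨hρ1, hρ2, hρ3, hρ4⟩ := c1 ρ hρ0 hρ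
  obtain ⟨hj3, hj4⟩ := c4 j hj
  have hB1 : 1 ≤ B := by
    have h1 : (1 : ℝ) ≤ 17 ^ (2 * e) := one_le_pow₀ (by norm_num)
    have h2 : (1 : ℝ) * 1 ≤ 17 ^ (2 * e) * L ^ b := mul_le_mul h1 hLb (by norm_num) (by positivity)
    rw [hB, mul_assoc]
    linarith
  have hs5 : 5184 * B + 5 ≤ (s : ℝ) := by
    rw [hs]
    push_cast
    linarith [Nat.le_ceil (5184 * B)]
  have hs0 : (0 : ℝ) < s := by linarith
  have hs1 : 1 ≤ s := by
    have : (0 : ℕ) < s := by exact_mod_cast hs0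
    omega
  have hK1 : 1 ≤ K := by
    have h1 : (1 : ℝ) ≤ 9 * B * s := by
      have h2 : (1 : ℝ) * 1 ≤ B * s := mul_le_mul hB1 (by linarith) (by norm_num) (by linarith)
      rw [mul_assoc]
      linarith
    have h3 : (1 : ℝ) ≤ (9 * B * s) ^ 4 := one_le_pow₀ h1
    rw [hK]
    linarith
  have hT0 : 0 ≤ T := by
    rw [hT]
    have : 0 ≤ K := by linarith
    positivity
  have hcnt1 : (1 : ℝ) ≤ cnt f G 1 := by
    exact_mod_cast one_le_cnt hD (by norm_num : (0 : ℝ) ≤ 1)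
  have hΘ0 : 0 < Θ.card := by
    rcases Nat.eq_zero_or_pos Θ.card with h | h
    · exfalso
      rw [h] at hcnt
      simp only [Nat.cast_zero, mul_zero, zero_mul] at hcnt
      linarith
    · exact h
  by_cases hA : L ^ b * (Θ.card : ℝ) ≤ L ^ C
  · obtain ⟨t, ht⟩ := Finset.card_pos.1 hΘ0
    refine ⟨⟨1, t⟩, ?_, ?_⟩
    · intro h
      have := congrArg Complex.re h
      simp at this
    · have h1 := (hlines t ht).1
      have h2 : (cnt f (lp Φ G t) 1 : ℝ) ≤ cnt f (lz Φ G ⟨1, t⟩) 1 := by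
        exact_mod_cast cnt_sub (hD.lz _) (lp_le_lz t)
      have h3 : j ^ 2 ≤ (cnt f (lz Φ G ⟨1, t⟩) 1 : ℝ) ^ 2 :=
        pow_le_pow_left₀ hj0.le (h1.trans h2) 2
      calc (cnt f G 1 : ℝ) ≤ L ^ b * Θ.card * j ^ 2 := hcnt
        _ ≤ L ^ C * (cnt f (lz Φ G ⟨1, t⟩) 1 : ℝ) ^ 2 :=
          mul_le_mul hA h3 (by positivity) (by positivity)
  rw [not_le] at hA
  have hsΘ : (s : ℝ) < Θ.card :=
    lt_of_mul_lt_mul_left (lt_of_le_of_lt c6 hA) (by positivity)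
  have hsΘ' : s ≤ Θ.card := by
    have : s < Θ.card := by exact_mod_cast hsΘ
    omega
  have hΘ0' : (0 : ℝ) < Θ.card := by linarith
  -- the subspaces of the lines
  obtain ⟨N, hN⟩ : ∃ N : ℝ → Submodule ℚ A, N = fun t => bs f (lp Φ G t) ρ := ⟨_, rfl⟩
  have hslo : ∀ t, ∀ x ∈ N t, (Φ x).im = t * (Φ x).re := by
    intro t x hx
    rw [hN] at hx
    exact slope_bs hD ρ t x hx
  have hgen : ∀ t ∈ Θ, bs f (cut G (N t)) ρ = N t := by
    intro t ht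
    rw [hN]
    change bs f (cut G (bs f (lp Φ G t) ρ)) ρ = bs f (lp Φ G t) ρ
    conv_lhs => unfold bs
    change Submodule.span ℚ (bl f (cut G (bs f (lp Φ G t) ρ)) ρ : Set A) = _
    rw [bl_cut hD le_rfl]
    rfl
  have hlin : ∀ t ∈ Θ, j ≤ cnt f (cut G (N t)) 1 := by
    intro t ht
    obtain ⟨h1, h2, h3⟩ := hlines t ht
    rw [hN]
    change j ≤ (bl f (cut G (bs f (lp Φ G t) ρ)) 1).card
    rw [bl_cut hD h3]
    exact h1
  have hdim : ∀ t ∈ Θ, finrank ℚ (N t) = e := by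
    intro t ht
    rw [hN]
    exact (hlines t ht).2.1
  -- the covering estimate
  have hcov : (cnt f G 8 : ℝ) ≤ 17 ^ (2 * e) * (L ^ b * Θ.card * j ^ 2) := by
    have h1 := hCOV A E f G 8 1 (2 * e) hD (by norm_num) (by norm_num)
      (by rw [← hrk]; exact Submodule.finrank_le _)
    have h2 : (1 + 2 * 8 / 1 : ℝ) = 17 := by norm_num
    rw [h2] at h1
    exact h1.trans (mul_le_mul_of_nonneg_left hcnt (by positivity))
  obtain ⟨F, hF1, hF2, hF3⟩ := hBLF A E Φ f G Θ s _ hD hs1 hsΘ' hcov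
  have hF3' : (Θ.card : ℝ) ≤ 4 * s * F.card := by exact_mod_cast hF3
  have hcone : ∀ W ∈ F, W ⊆ Θ ∧ W.card = s ∧ ∃ a b : ℝ, (∀ t ∈ W, a ≤ t ∧ t ≤ b) ∧
      ((cone Φ f G 8 a b).card : ℝ) ≤ B * s * j ^ 2 := by
    intro W hW
    obtain ⟨h1, h2, a, b', h3, h4⟩ := hF1 W hW
    refine ⟨h1, h2, a, b', h3, ?_⟩
    have h5 : ((cone Φ f G 8 a b').card : ℝ) * Θ.card ≤ B * s * j ^ 2 * Θ.card := by
      calc ((cone Φ f G 8 a b').card : ℝ) * Θ.card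
          ≤ 4 * s * (17 ^ (2 * e) * (L ^ b * Θ.card * j ^ 2)) := h4
        _ = B * s * j ^ 2 * Θ.card := by rw [hB]; ring
    exact le_of_mul_le_mul_right h5 hΘ0'
  have hR8 : 8 * ((e : ℝ) + 1) ≤ R := by
    rw [hR]
    have : 0 ≤ B * s * ((4 * ((e : ℝ) + 2)) ^ (2 * e) * 7 ^ (2 * e)) := by positivity
    linarith
  have hRB : B * s * ((4 * ((e : ℝ) + 2)) ^ (2 * e) * 7 ^ (2 * e)) < R := by
    rw [hR]
    have : (0 : ℝ) ≤ e := Nat.cast_nonneg e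
    linarith
  have hblk : ∀ W ∈ F, Blk Φ f G N W e ρ j B := by
    intro W hW
    obtain ⟨hWs, hWc, a, b', hab, hco⟩ := hcone W hW
    have hdis : ∀ s' ∈ W, ∀ t ∈ W, s' ≠ t → Disjoint (N s') (N t) := by
      intro s' hs' t ht hst
      exact hMIK A E Φ f G (N s') (N t) e ρ j (B * s) R a b' s' t hD hρ0 hρ2 hj0 hst
        (hab s' hs').1 (hab s' hs').2 (hab t ht).1 (hab t ht).2 (hdim s' (hWs hs'))
        (hdim t (hWs ht)) (hslo s') (hslo t) (hgen s' (hWs hs')) (hgen t (hWs ht))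
        (hlin s' (hWs hs')) (hlin t (hWs ht)) hco hR8 hRB (hP.mono c2)
    refine ⟨hD, hP.mono c3, hfin, he, hρ0, hρ1, hj3, hB1, fun t _ => hslo t, ?_,
      fun t ht => hdim t (hWs ht), fun t ht => hgen t (hWs ht), fun t ht => hlin t (hWs ht), ?_,
      a, b', hab, ?_⟩
    · intro s' hs' t ht hst
      have h1 := hdis s' hs' t ht hst
      refine ⟨h1, codisjoint_iff.2 (Submodule.eq_top_of_disjoint _ _ ?_ h1)⟩
      rw [hrk, hdim s' (hWs hs'), hdim t (hWs ht)]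
      omega
    · rw [hWc]
      exact hs5
    · rw [hWc]
      exact hco
  have hout : ∀ W ∈ F, ∃ x : A, (∃ t ∈ W, x ∈ cut G (N t)) ∧ x ≠ 0 ∧ ‖f x‖ ≤ 1 ∧
      ‖f x‖ ^ e * j ≤ 3 ^ e ∧ Out Φ f G e m (K ^ e) x := by
    intro W hW
    have hWc := (hcone W hW).2.1
    obtain ⟨t, ht, x, hx, h1, h2, h3, h4⟩ := hBCK A E Φ f G N W e m n ρ j B K (hblk W hW)
      (by rw [hWc]; exact hK) hρ3 (by rw [hm]; exact Nat.le_ceil _) (by rw [hn]; omega) hρ4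
    exact ⟨x, ⟨t, ht, hx⟩, h1, h2, h3, h4⟩
  choose! x hx1 hx2 hx3 hx4 hx5 using hout
  have hinj : Set.InjOn x F := by
    intro W hW W' hW' hxx
    by_contra hne
    obtain ⟨t, ht, hxt⟩ := hx1 W hW
    obtain ⟨t', ht', hxt'⟩ := hx1 W' hW'
    have hdis := hF2 W hW W' hW' hne
    have htt : t ≠ t' := by
      intro h
      rw [← h] at ht'
      exact (Finset.disjoint_left.1 hdis ht) ht'
    rw [← hxx] at hxt'
    have h0 : Φ (x W) = 0 := eq_zero_of_slopes htt (hslo t _ hxt.2) (hslo t' _ hxt'.2)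
    exact hx2 W hW (hP _ hxt.1 ((hx3 W hW).trans hLC) h0)
  have hXc : (F.image x).card = F.card := Finset.card_image_of_injOn hinj
  have hmain : L ^ b * (Θ.card : ℝ) ≤ L ^ b * (4 * s) * (F.image x).card := by
    rw [hXc, mul_assoc]
    exact mul_le_mul_of_nonneg_left hF3' (by positivity)
  have hcntX : (cnt f G 1 : ℝ) ≤ L ^ b * (4 * s) * (F.image x).card * j ^ 2 :=
    hcnt.trans (mul_le_mul_of_nonneg_right hmain (by positivity))
  have hD1 : (1 : ℝ) ≤ L ^ b * (4 * s) := by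
    have h1 : (1 : ℝ) * 1 ≤ L ^ b * (4 * s) :=
      mul_le_mul hLb (by linarith) (by norm_num) (by positivity)
    linarith
  rcases hTPL A E Φ f G e m (F.image x) (K ^ e) j T (L ^ b * (4 * s)) hD hfin (by rw [hrk]) he
    (one_le_pow₀ hK1) hj0 hD1 (hP.mono (by linarith)) hT (by
      intro y hy
      obtain ⟨W, hW, rfl⟩ := Finset.mem_image.1 hy
      obtain ⟨t, ht, hxt⟩ := hx1 W hW
      exact ⟨hxt.1, hx4 W hW, hx5 W hW⟩) hcntX hj4 with h | ⟨z, hz, h⟩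
  · exfalso
    have h1 : L ^ b * (4 * s) * ((F.image x).card : ℝ) ≤ L ^ b * (4 * s) * (T * 2 ^ (2 * e)) :=
      mul_le_mul_of_nonneg_left h (by positivity)
    linarith
  · refine ⟨z, hz, ?_⟩
    calc (cnt f G 1 : ℝ) ≤ L ^ b * (4 * s) * (F.image x).card * j ^ 2 := hcntX
      _ = L ^ b * (4 * s) * (((F.image x).card : ℝ) * j ^ 2) := by ring
      _ ≤ L ^ b * (4 * s) * (T * (12 * e * K ^ e) ^ (2 * e) * (cnt f (lz Φ G z) 1 : ℝ) ^ 2) :=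
        mul_le_mul_of_nonneg_left h (by positivity)
      _ = L ^ b * (4 * s) * (T * (12 * e * K ^ e) ^ (2 * e)) * (cnt f (lz Φ G z) 1 : ℝ) ^ 2 := by
        ring
      _ ≤ L ^ C * (cnt f (lz Φ G z) 1 : ℝ) ^ 2 :=
        mul_le_mul_of_nonneg_right c7 (by positivity)

end Pool.Agent.PLX.H38
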